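import Mathlib

/-!
# The homomorphism threshold and the blowup threshold differ for the gem

`H`-freeness is `SimpleGraph.Free` from Mathlib (no not necessarily induced copy of `H`).
We define the homomorphism threshold and the blowup threshold of a graph exactly as in the
problem file, and show that for the gem `K_1 ∨ P_4` the first is at most `3/7` and the second
is at least `1/2`.
-/

set_option autoImplicit false

namespace Pool.Agent.Results.MP_dfc8ea_co.GemThresholds

open SimpleGraph Finset

/-- `G` is maximal `H`-free: it is `H`-free and adding any edge between two distinct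
non-adjacent vertices creates a copy of `H`. -/
def MaximalFree {W V : Type} (H : SimpleGraph W) (G : SimpleGraph V) : Prop :=
  H.Free G ∧ ∀ u v : V, u ≠ v → ¬ G.Adj u v → ¬ H.Free (G ⊔ SimpleGraph.edge u v)

/-- `δ(G) ≥ α |G|`: every vertex has at least `α |V|` neighbours. -/
def MinDegGE {V : Type} (G : SimpleGraph V) (α : ℝ) : Prop :=
  ∀ v : V, α * (Nat.card V : ℝ) ≤ ((G.neighborSet v).ncard : ℝ)

/-- `G` is a blowup of `F`: the vertices of `G` are split into nonempty classes, one for each
vertex of `F` (the fibres of `f`), and two vertices of `G` are adjacent exactly when their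
classes are adjacent in `F` (so each class is independent). -/
def IsBlowup {V X : Type} (G : SimpleGraph V) (F : SimpleGraph X) : Prop :=
  ∃ f : V → X, Function.Surjective f ∧ ∀ u v : V, G.Adj u v ↔ F.Adj (f u) (f v)

/-- One finite `H`-free graph `F` is a homomorphic target for all finite `H`-free graphs `G`
with `δ(G) ≥ α |G|`. -/
def HomProperty {W : Type} (H : SimpleGraph W) (α : ℝ) : Prop :=
  ∃ (X : Type) (_ : Finite X) (F : SimpleGraph X), H.Free F ∧
    ∀ (V : Type) [Finite V] (G : SimpleGraph V), H.Free G → MinDegGE G α → Nonempty (G →g F)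

/-- For some constant `C`, every finite maximal `H`-free graph `G` with `δ(G) ≥ α |G|` is a
blowup of a graph with at most `C` vertices. -/
def BlowupProperty {W : Type} (H : SimpleGraph W) (α : ℝ) : Prop :=
  ∃ C : ℕ, ∀ (V : Type) [Finite V] (G : SimpleGraph V), MaximalFree H G → MinDegGE G α →
    ∃ (X : Type) (_ : Finite X) (F : SimpleGraph X), Nat.card X ≤ C ∧ IsBlowup G F

/-- The homomorphism threshold of `H`. -/
noncomputable def homThreshold {W : Type} (H : SimpleGraph W) : ℝ :=
  sInf {α : ℝ | 0 ≤ α ∧ HomProperty H α}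

/-- The blowup threshold of `H`. -/
noncomputable def blowupThreshold {W : Type} (H : SimpleGraph W) : ℝ :=
  sInf {α : ℝ | 0 ≤ α ∧ BlowupProperty H α}

/-- The gem: the vertex `0` is joined to all vertices of the path `1, 2, 3, 4`. -/
def gem : SimpleGraph (Fin 5) where
  Adj i j := i ≠ j ∧ (i = 0 ∨ j = 0 ∨ i.val + 1 = j.val ∨ j.val + 1 = i.val)
  symm := ⟨fun i j h => ⟨h.1.symm, by tauto⟩⟩
  loopless := ⟨fun i h => h.1 rfl⟩

/-! ### Copies of the gem -/

/-- A gem found in a graph. -/
theorem gem_contained {V : Type} {G : SimpleGraph V} {h p q r s : V}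
    (hp : G.Adj h p) (hq : G.Adj h q) (hr : G.Adj h r) (hs : G.Adj h s)
    (pq : G.Adj p q) (qr : G.Adj q r) (rs : G.Adj r s)
    (pr : p ≠ r) (ps : p ≠ s) (qs : q ≠ s) : ¬ gem.Free G := by
  intro hfree
  apply hfree
  refine ⟨⟨⟨![h, p, q, r, s], ?_⟩, ?_⟩⟩
  · intro i j hij
    have hij' : i ≠ j ∧ (i = 0 ∨ j = 0 ∨ i.val + 1 = j.val ∨ j.val + 1 = i.val) := hij
    fin_cases i <;> fin_cases j <;> simp at hij' ⊢ <;>
      first | assumption | (apply SimpleGraph.Adj.symm; assumption)
  · intro i j hij
    have e1 := hp.ne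
    have e2 := hq.ne
    have e3 := hr.ne
    have e4 := hs.ne
    have e5 := pq.ne
    have e6 := qr.ne
    have e7 := rs.ne
    fin_cases i <;> fin_cases j <;> simp at hij ⊢ <;>
      first
      | exact e1 hij | exact e1 hij.symm | exact e2 hij | exact e2 hij.symm
      | exact e3 hij | exact e3 hij.symm | exact e4 hij | exact e4 hij.symm
      | exact e5 hij | exact e5 hij.symm | exact e6 hij | exact e6 hij.symm
      | exact e7 hij | exact e7 hij.symm | exact pr hij | exact pr hij.symm
      | exact ps hij | exact ps hij.symm | exact qs hij | exact qs hij.symm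

/-- A copy of the gem, unpacked. -/
theorem gem_unpack {V : Type} {G : SimpleGraph V} (hG : gem ⊑ G) :
    ∃ h p q r s : V, G.Adj h p ∧ G.Adj h q ∧ G.Adj h r ∧ G.Adj h s ∧ G.Adj p q ∧ G.Adj q r ∧
      G.Adj r s ∧ p ≠ r ∧ p ≠ s ∧ q ≠ s := by
  obtain ⟨c⟩ := hG
  have hadj : ∀ i j : Fin 5, gem.Adj i j → G.Adj (c.toHom i) (c.toHom j) :=
    fun i j hij => c.toHom.map_rel hij
  have hinj : ∀ i j : Fin 5, i ≠ j → c.toHom i ≠ c.toHom j :=
    fun i j hij h => hij (c.injective' h)
  refine ⟨c.toHom 0, c.toHom 1, c.toHom 2, c.toHom 3, c.toHom 4, ?_, ?_, ?_, ?_, ?_, ?_, ?_,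
    ?_, ?_, ?_⟩
  · exact hadj 0 1 ⟨by decide, by decide⟩
  · exact hadj 0 2 ⟨by decide, by decide⟩
  · exact hadj 0 3 ⟨by decide, by decide⟩
  · exact hadj 0 4 ⟨by decide, by decide⟩
  · exact hadj 1 2 ⟨by decide, by decide⟩
  · exact hadj 2 3 ⟨by decide, by decide⟩
  · exact hadj 3 4 ⟨by decide, by decide⟩
  · exact hinj 1 3 (by decide)
  · exact hinj 1 4 (by decide)
  · exact hinj 2 4 (by decide)


/-! ### Gem-free graphs of large minimum degree -/

section upper

variable {V : Type} [Fintype V] [DecidableEq V] (G : SimpleGraph V) [DecidableRel G.Adj]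

/-- The number of common neighbours. -/
def cod (u v : V) : ℕ := (G.neighborFinset u ∩ G.neighborFinset v).card

theorem cod_comm (u v : V) : cod G u v = cod G v u := by
  unfold cod; rw [Finset.inter_comm]

variable {G}

/-- If `u, v, w` is a triangle and `u, v` have at least three common neighbours then `u, w` have
at most one common neighbour. -/
theorem cod_le_one (hG : gem.Free G) {u v w : V} (huv : G.Adj u v) (huw : G.Adj u w)
    (hvw : G.Adj v w) (h3 : 3 ≤ cod G u v) : cod G u w ≤ 1 := by
  by_contra hcon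
  push Not at hcon
  unfold cod at h3 hcon
  -- a common neighbour `y ≠ v` of `u` and `w`
  obtain ⟨y, hy, hyv⟩ : ∃ y ∈ G.neighborFinset u ∩ G.neighborFinset w, y ≠ v := by
    obtain ⟨y, hy, hyv⟩ := Finset.exists_mem_ne hcon v
    exact ⟨y, hy, hyv⟩
  rw [Finset.mem_inter, mem_neighborFinset, mem_neighborFinset] at hy
  -- a common neighbour `x` of `u` and `v` outside `{w, y}`
  obtain ⟨x, hx, hxw⟩ : ∃ x ∈ G.neighborFinset u ∩ G.neighborFinset v, x ∉ ({w, y} : Finset V) := by
    apply Finset.exists_mem_notMem_of_card_lt_card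
    calc ({w, y} : Finset V).card ≤ 2 := Finset.card_le_two
      _ < _ := h3
  rw [Finset.mem_inter, mem_neighborFinset, mem_neighborFinset] at hx
  simp only [Finset.mem_insert, Finset.mem_singleton, not_or] at hxw
  -- path x v w y
  exact gem_contained hx.1 huv huw hy.1 hx.2.symm hvw hy.2 hxw.1 hxw.2 hyv.symm hG

/-- Inclusion-exclusion for the neighbourhoods of three vertices. -/
theorem three_deg (u v w : V) :
    G.degree u + G.degree v + G.degree w ≤
      Fintype.card V + cod G u v + cod G u w + cod G v w := by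
  unfold cod
  have h1 := Finset.card_union_add_card_inter (G.neighborFinset u) (G.neighborFinset v)
  have h2 := Finset.card_union_add_card_inter (G.neighborFinset u ∪ G.neighborFinset v)
    (G.neighborFinset w)
  have h3 : ((G.neighborFinset u ∪ G.neighborFinset v) ∪ G.neighborFinset w).card ≤
      Fintype.card V := Finset.card_le_univ _
  have h4 : ((G.neighborFinset u ∪ G.neighborFinset v) ∩ G.neighborFinset w).card ≤
      (G.neighborFinset u ∩ G.neighborFinset w).card +
        (G.neighborFinset v ∩ G.neighborFinset w).card := by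
    rw [Finset.union_inter_distrib_right]
    exact Finset.card_union_le _ _
  simp only [SimpleGraph.card_neighborFinset_eq_degree] at h1 h2
  omega

/-- Heavy edges: at least three common neighbours. -/
def heavy (G : SimpleGraph V) [DecidableRel G.Adj] : SimpleGraph V where
  Adj u v := G.Adj u v ∧ 3 ≤ cod G u v
  symm := ⟨fun u v h => ⟨h.1.symm, by rw [cod_comm]; exact h.2⟩⟩
  loopless := ⟨fun u h => h.1.ne rfl⟩

/-- Each triangle contains a heavy edge if all degrees are large. -/
theorem triangle_heavy {d : ℕ} (hd : ∀ v, d ≤ G.degree v) (hn : Fintype.card V + 7 ≤ 3 * d)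
    (u v w : V) :
    3 ≤ cod G u v ∨ 3 ≤ cod G u w ∨ 3 ≤ cod G v w := by
  have h := three_deg (G := G) u v w
  have h1 := hd u
  have h2 := hd v
  have h3 := hd w
  omega

/-- A heavy edge has many common neighbours. -/
theorem heavy_cod (hG : gem.Free G) {d : ℕ} (hd : ∀ v, d ≤ G.degree v) {v w : V}
    (hvw : G.Adj v w) (h3 : 3 ≤ cod G v w) : 3 * d ≤ Fintype.card V + 2 + cod G v w := by
  obtain ⟨u, hu⟩ : ∃ u, u ∈ G.neighborFinset v ∩ G.neighborFinset w := by
    apply Finset.card_pos.mp
    unfold cod at h3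
    omega
  rw [Finset.mem_inter, mem_neighborFinset, mem_neighborFinset] at hu
  have h := three_deg (G := G) u v w
  have e1 : cod G v u ≤ 1 := cod_le_one hG hvw hu.1 hu.2 h3
  have e2 : cod G w u ≤ 1 :=
    cod_le_one hG hvw.symm hu.2 hu.1 (by rw [cod_comm]; exact h3)
  rw [cod_comm] at e1 e2
  have h1 := hd u
  have h2 := hd v
  have h3 := hd w
  omega

/-- The heavy edges form a matching. -/
theorem heavy_matching (hG : gem.Free G) {d : ℕ} (hd : ∀ v, d ≤ G.degree v)
    (hn7 : 3 * Fintype.card V + 5 ≤ 7 * d) {v w x : V}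
    (hw : (heavy G).Adj v w) (hx : (heavy G).Adj v x) : w = x := by
  by_contra hne
  obtain ⟨avw, cvw⟩ := hw
  obtain ⟨avx, cvx⟩ := hx
  have hcw := heavy_cod hG hd avw cvw
  have hcx := heavy_cod hG hd avx cvx
  set A := G.neighborFinset v ∩ G.neighborFinset w with hA
  set B := G.neighborFinset v ∩ G.neighborFinset x with hB
  have memA : ∀ y, y ∈ A ↔ G.Adj v y ∧ G.Adj w y := by
    intro y; rw [hA, Finset.mem_inter, mem_neighborFinset, mem_neighborFinset]
  have memB : ∀ y, y ∈ B ↔ G.Adj v y ∧ G.Adj x y := by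
    intro y; rw [hB, Finset.mem_inter, mem_neighborFinset, mem_neighborFinset]
  -- if `a ∈ A` then the only common neighbour of `v` and `a` is `w`
  have keyA : ∀ a ∈ A, ∀ b, G.Adj v b → G.Adj a b → b = w := by
    intro a ha b hvb hab
    by_contra hbw
    have ha' := (memA a).1 ha
    have h1 : cod G v a ≤ 1 := cod_le_one hG avw ha'.1 ha'.2 cvw
    have h2 : ({w, b} : Finset V) ⊆ G.neighborFinset v ∩ G.neighborFinset a := by
      intro z hz
      simp only [Finset.mem_insert, Finset.mem_singleton] at hz
      rw [Finset.mem_inter, mem_neighborFinset, mem_neighborFinset]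
      rcases hz with rfl | rfl
      · exact ⟨avw, ha'.2.symm⟩
      · exact ⟨hvb, hab⟩
    have h3 := Finset.card_le_card h2
    rw [Finset.card_pair (Ne.symm hbw)] at h3
    unfold cod at h1
    omega
  -- `x` is not adjacent to `w`
  have hwx : ¬ G.Adj w x := by
    intro hwx
    have h1 : cod G v x ≤ 1 := cod_le_one hG avw avx hwx cvw
    omega
  have disj : Disjoint A B := by
    rw [Finset.disjoint_left]
    intro y hyA hyB
    have hyB' := (memB y).1 hyB
    exact hne (keyA y hyA x avx hyB'.2.symm).symm
  -- pick `a ∈ A`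
  obtain ⟨a, ha⟩ : ∃ a, a ∈ A := by
    apply Finset.card_pos.mp
    have : cod G v w = A.card := rfl
    omega
  have hna : G.neighborFinset a ⊆ Finset.univ \ (A ∪ B) := by
    intro b hb
    rw [mem_neighborFinset] at hb
    rw [Finset.mem_sdiff]
    refine ⟨Finset.mem_univ _, ?_⟩
    intro hbAB
    rcases Finset.mem_union.1 hbAB with hbA | hbB
    · have hb' := (memA b).1 hbA
      have := keyA a ha b hb'.1 hb
      subst this
      exact hb'.2.ne rfl
    · have hb' := (memB b).1 hbB
      have := keyA a ha b hb'.1 hb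
      subst this
      exact hwx hb'.2.symm
  have hcard := Finset.card_le_card hna
  rw [Finset.card_sdiff_of_subset (Finset.subset_univ _), Finset.card_union_of_disjoint disj,
    SimpleGraph.card_neighborFinset_eq_degree, Finset.card_univ] at hcard
  have hda := hd a
  have e1 : cod G v w = A.card := rfl
  have e2 : cod G v x = B.card := rfl
  have hsub : A.card + B.card ≤ Fintype.card V := by
    rw [← Finset.card_union_of_disjoint disj]
    exact Finset.card_le_univ _
  omega

omit [DecidableEq V] in
/-- A graph whose edges form a matching is bipartite. -/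
theorem matching_colorable (M : SimpleGraph V) (hM : ∀ v w x, M.Adj v w → M.Adj v x → w = x) :
    Nonempty (M.Coloring Bool) := by
  classical
  let e := Fintype.equivFin V
  refine ⟨Coloring.mk (fun v => decide (∃ w, M.Adj v w ∧ e v < e w)) ?_⟩
  intro v w hvw heq
  have hne : e v ≠ e w := fun h => hvw.ne (e.injective h)
  rcases lt_or_gt_of_ne hne with hlt | hlt
  · have h1 : ∃ x, M.Adj v x ∧ e v < e x := ⟨w, hvw, hlt⟩
    have h2 : ¬ ∃ x, M.Adj w x ∧ e w < e x := by
      rintro ⟨x, hx, hlt'⟩
      have := hM w x v hx hvw.symm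
      subst this
      exact absurd hlt (not_lt.mpr hlt'.le)
    simp [h1, h2] at heq
  · have h1 : ∃ x, M.Adj w x ∧ e w < e x := ⟨v, hvw.symm, hlt⟩
    have h2 : ¬ ∃ x, M.Adj v x ∧ e v < e x := by
      rintro ⟨x, hx, hlt'⟩
      have := hM v x w hx hvw
      subst this
      exact absurd hlt (not_lt.mpr hlt'.le)
    simp [h1, h2] at heq

/-- A gem-free graph with minimum degree above `3n/7` is `4`-colourable. -/
theorem colorable_four (hG : gem.Free G) {d : ℕ} (hd : ∀ v, d ≤ G.degree v)
    (hn7 : 3 * Fintype.card V + 5 ≤ 7 * d) (hbig : 20 ≤ Fintype.card V) : G.Colorable 4 := by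
  classical
  have : Nonempty V := Fintype.card_pos_iff.mp (by omega)
  have hn : Fintype.card V + 7 ≤ 3 * d := by omega
  obtain ⟨c2⟩ := matching_colorable (heavy G) (fun v w x hw hx => heavy_matching hG hd hn7 hw hx)
  let G' : SimpleGraph V := G \ heavy G
  have hfree : G'.CliqueFree (2 + 1) := by
    intro t ht
    rw [show (2 + 1 : ℕ) = 3 from rfl, SimpleGraph.is3Clique_iff] at ht
    obtain ⟨a, b, c, hab, hac, hbc, -⟩ := ht
    rw [SimpleGraph.sdiff_adj] at hab hac hbc
    rcases triangle_heavy hd hn a b c with h | h | h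
    · exact hab.2 ⟨hab.1, h⟩
    · exact hac.2 ⟨hac.1, h⟩
    · exact hbc.2 ⟨hbc.1, h⟩
  have hdeg : ∀ v, d - 1 ≤ G'.degree v := by
    intro v
    have h1 : G.neighborFinset v ⊆ G'.neighborFinset v ∪ (heavy G).neighborFinset v := by
      intro w hw
      rw [mem_neighborFinset] at hw
      rw [Finset.mem_union, mem_neighborFinset, mem_neighborFinset, SimpleGraph.sdiff_adj]
      tauto
    have h2 : ((heavy G).neighborFinset v).card ≤ 1 := by
      rw [Finset.card_le_one]
      intro a ha b hb
      rw [mem_neighborFinset] at ha hb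
      exact heavy_matching hG hd hn7 ha hb
    have h3 := Finset.card_le_card h1
    have h4 := Finset.card_union_le (G'.neighborFinset v) ((heavy G).neighborFinset v)
    rw [SimpleGraph.card_neighborFinset_eq_degree] at h3
    rw [SimpleGraph.card_neighborFinset_eq_degree G'] at h4
    have h5 := hd v
    omega
  have hmin : (3 * 2 - 4) * Fintype.card V / (3 * 2 - 1) < G'.minDegree := by
    have h1 : d - 1 ≤ G'.minDegree := G'.le_minDegree_of_forall_le_degree _ hdeg
    omega
  have hcol : G'.Colorable 2 := colorable_of_cliqueFree_lt_minDegree hfree hmin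
  obtain ⟨c1⟩ := hcol
  have C : G.Coloring (Fin 2 × Bool) := Coloring.mk (fun v => (c1 v, c2 v)) (by
    intro v w hvw heq
    rw [Prod.mk.injEq] at heq
    by_cases hh : (heavy G).Adj v w
    · exact c2.valid hh heq.2
    · exact c1.valid (show G'.Adj v w by rw [SimpleGraph.sdiff_adj]; exact ⟨hvw, hh⟩) heq.1)
  have := C.colorable
  simpa using this

end upper


/-! ### The upper bound for the homomorphism threshold -/

theorem map_free {V W : Type} {G : SimpleGraph V} (e : V ↪ W) (hG : gem.Free G) :
    gem.Free (G.map e) := by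
  by_contra hcon
  obtain ⟨h, p, q, r, s, hp, hq, hr, hs, pq, qr, rs, pr, ps, qs⟩ := gem_unpack hcon
  have mem : ∀ {x y : W}, (G.map e).Adj x y → ∃ x', e x' = x := by
    intro x y hxy
    rw [SimpleGraph.map_adj] at hxy
    obtain ⟨x', y', -, hx, -⟩ := hxy
    exact ⟨x', hx⟩
  obtain ⟨h', rfl⟩ := mem hp
  obtain ⟨p', rfl⟩ := mem hp.symm
  obtain ⟨q', rfl⟩ := mem hq.symm
  obtain ⟨r', rfl⟩ := mem hr.symm
  obtain ⟨s', rfl⟩ := mem hs.symm
  rw [SimpleGraph.map_adj_apply] at hp hq hr hs pq qr rs
  exact gem_contained hp hq hr hs pq qr rs (fun h => pr (by rw [h])) (fun h => ps (by rw [h]))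
    (fun h => qs (by rw [h])) hG

theorem top_four_free : gem.Free (⊤ : SimpleGraph (Fin 4)) := by
  rintro ⟨c⟩
  have := Fintype.card_le_of_injective _ c.injective'
  simp at this

/-- The disjoint union of all gem-free graphs on the vertex set `Fin N`. -/
def bigTarget (N : ℕ) : SimpleGraph ({A : SimpleGraph (Fin N) // gem.Free A} × Fin N) where
  Adj x y := x.1 = y.1 ∧ x.1.1.Adj x.2 y.2
  symm := ⟨fun x y h => ⟨h.1.symm, by rw [← h.1]; exact h.2.symm⟩⟩
  loopless := ⟨fun x h => h.2.ne rfl⟩

theorem bigTarget_free (N : ℕ) : gem.Free (bigTarget N) := by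
  by_contra hcon
  obtain ⟨h, p, q, r, s, hp, hq, hr, hs, pq, qr, rs, pr, ps, qs⟩ := gem_unpack hcon
  obtain ⟨A, h⟩ := h
  obtain ⟨A1, p⟩ := p
  obtain ⟨A2, q⟩ := q
  obtain ⟨A3, r⟩ := r
  obtain ⟨A4, s⟩ := s
  have e1 : A = A1 := hp.1
  have e2 : A = A2 := hq.1
  have e3 : A = A3 := hr.1
  have e4 : A = A4 := hs.1
  subst e1 e2 e3 e4
  exact gem_contained hp.2 hq.2 hr.2 hs.2 pq.2 qr.2 rs.2 (fun h => pr (congrArg (Prod.mk A) h))
    (fun h => ps (congrArg (Prod.mk A) h)) (fun h => qs (congrArg (Prod.mk A) h)) A.2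

theorem hom_bigTarget {V : Type} {G : SimpleGraph V} {N : ℕ} (e : V ↪ Fin N)
    (hG : gem.Free G) : Nonempty (G →g bigTarget N) :=
  ⟨⟨fun v => (⟨G.map e, map_free e hG⟩, e v), fun hab =>
    ⟨rfl, (SimpleGraph.map_adj_apply).2 hab⟩⟩⟩

theorem homProperty_gem {α : ℝ} (hα : 3 / 7 < α) : HomProperty gem α := by
  classical
  obtain ⟨N₀, hN₀⟩ := exists_nat_gt (5 / (7 * α - 3))
  have hpos : 0 < 7 * α - 3 := by linarith
  set N := max N₀ 20 with hN
  refine ⟨_, inferInstance, bigTarget N, bigTarget_free N, ?_⟩
  intro V _ G hG hdeg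
  have := Fintype.ofFinite V
  rcases lt_or_ge (Nat.card V) N with hlt | hge
  · -- few vertices
    have hcard : Fintype.card V ≤ Fintype.card (Fin N) := by
      rw [Fintype.card_fin, ← Nat.card_eq_fintype_card]
      exact hlt.le
    obtain ⟨e⟩ := Function.Embedding.nonempty_of_card_le hcard
    exact hom_bigTarget e hG
  · -- many vertices
    have hn : (N : ℝ) ≤ (Nat.card V : ℝ) := by exact_mod_cast hge
    have hN1 : (N₀ : ℝ) ≤ (N : ℝ) := by exact_mod_cast le_max_left _ _
    have h20 : 20 ≤ Fintype.card V := by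
      rw [← Nat.card_eq_fintype_card]
      exact (le_max_right N₀ 20).trans hge
    have hcond : 3 * (Nat.card V : ℝ) + 5 ≤ 7 * (α * (Nat.card V : ℝ)) := by
      have h1 : 5 / (7 * α - 3) ≤ (Nat.card V : ℝ) := by linarith
      rw [div_le_iff₀ hpos] at h1
      linarith
    have hd : ∀ v, ⌈α * (Nat.card V : ℝ)⌉₊ ≤ G.degree v := by
      intro v
      rw [Nat.ceil_le]
      refine (hdeg v).trans (le_of_eq ?_)
      rw [← SimpleGraph.card_neighborFinset_eq_degree, ← Set.ncard_coe_finset,
        SimpleGraph.coe_neighborFinset]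
    have hd7 : 3 * Fintype.card V + 5 ≤ 7 * ⌈α * (Nat.card V : ℝ)⌉₊ := by
      have h1 : α * (Nat.card V : ℝ) ≤ (⌈α * (Nat.card V : ℝ)⌉₊ : ℝ) := Nat.le_ceil _
      have h2 : ((3 * Fintype.card V + 5 : ℕ) : ℝ) ≤ ((7 * ⌈α * (Nat.card V : ℝ)⌉₊ : ℕ) : ℝ) := by
        push_cast
        rw [← Nat.card_eq_fintype_card]
        linarith
      exact_mod_cast h2
    have hcol := colorable_four hG hd hd7 h20
    obtain ⟨c⟩ := hcol
    have h4N : 4 ≤ N := le_trans (by norm_num) (le_max_right N₀ 20)
    obtain ⟨f⟩ := hom_bigTarget (Fin.castLEEmb h4N) top_four_free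
    exact ⟨f.comp c⟩

theorem homThreshold_gem_le : homThreshold gem ≤ 3 / 7 := by
  unfold homThreshold
  have hbdd : BddBelow {α : ℝ | 0 ≤ α ∧ HomProperty gem α} := ⟨0, fun α h => h.1⟩
  apply le_of_forall_gt_imp_ge_of_dense
  intro α hα
  exact csInf_le hbdd ⟨by linarith, homProperty_gem hα⟩

/-! ### The lower bound for the blowup threshold -/

/-- The complete bipartite graph with two sides of size `2 k`, together with a perfect matching
inside the first side. -/
def matched (k : ℕ) : SimpleGraph ((Fin k × Bool) ⊕ (Fin k × Bool)) where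
  Adj x y :=
    match x, y with
    | .inl a, .inl b => a.1 = b.1 ∧ a.2 ≠ b.2
    | .inl _, .inr _ => True
    | .inr _, .inl _ => True
    | .inr _, .inr _ => False
  symm := ⟨by
    rintro (a | a) (b | b) h
    · exact ⟨h.1.symm, h.2.symm⟩
    · trivial
    · trivial
    · exact h⟩
  loopless := ⟨by
    rintro (a | a) h
    · exact h.2 rfl
    · exact h⟩

theorem matched_ll {k : ℕ} {a b : Fin k × Bool} :
    (matched k).Adj (.inl a) (.inl b) ↔ a.1 = b.1 ∧ a.2 ≠ b.2 := Iff.rfl

theorem matched_lr {k : ℕ} (a b : Fin k × Bool) : (matched k).Adj (.inl a) (.inr b) := trivial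

theorem matched_rl {k : ℕ} (a b : Fin k × Bool) : (matched k).Adj (.inr a) (.inl b) := trivial

theorem matched_rr {k : ℕ} (a b : Fin k × Bool) : ¬ (matched k).Adj (.inr a) (.inr b) :=
  fun h => h

/-- Two neighbours of `a` inside the first side coincide. -/
theorem matched_unique {k : ℕ} {a b c : Fin k × Bool}
    (h1 : (matched k).Adj (.inl a) (.inl b)) (h2 : (matched k).Adj (.inl a) (.inl c)) :
    b = c := by
  rw [matched_ll] at h1 h2
  refine Prod.ext (h1.1.symm.trans h2.1) ?_
  have e1 := h1.2
  have e2 := h2.2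
  revert e1 e2
  cases a.2 <;> cases b.2 <;> cases c.2 <;> simp

theorem matched_free (k : ℕ) : gem.Free (matched k) := by
  by_contra hcon
  obtain ⟨h, p, q, r, s, hp, hq, hr, hs, pq, qr, rs, pr, ps, qs⟩ := gem_unpack hcon
  rcases h with h | h
  · rcases p with p | p
    · rcases r with r | r
      · exact pr (congrArg Sum.inl (matched_unique hp hr))
      · rcases s with s | s
        · exact ps (congrArg Sum.inl (matched_unique hp hs))
        · exact matched_rr _ _ rs
    · rcases q with q | q
      · rcases r with r | r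
        · exact qr.ne (congrArg Sum.inl (matched_unique hq hr))
        · rcases s with s | s
          · exact qs (congrArg Sum.inl (matched_unique hq hs))
          · exact matched_rr _ _ rs
      · exact matched_rr _ _ pq
  · rcases p with p | p
    · rcases q with q | q
      · rcases r with r | r
        · exact pr (congrArg Sum.inl (matched_unique pq.symm qr))
        · exact matched_rr _ _ hr
      · exact matched_rr _ _ hq
    · exact matched_rr _ _ hp

theorem adj_sup_edge {V : Type} {G : SimpleGraph V} {u v : V} (huv : u ≠ v) :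
    (G ⊔ SimpleGraph.edge u v).Adj u v := by
  rw [SimpleGraph.sup_adj]
  right
  rw [SimpleGraph.edge_adj]
  exact ⟨Or.inl ⟨rfl, rfl⟩, huv⟩

theorem matched_maximal {k : ℕ} (hk : 2 ≤ k) : MaximalFree gem (matched k) := by
  refine ⟨matched_free k, ?_⟩
  intro u v huv hnadj
  have hnew := adj_sup_edge (G := matched k) huv
  have old : ∀ {x y}, (matched k).Adj x y → (matched k ⊔ SimpleGraph.edge u v).Adj x y :=
    fun h => by rw [SimpleGraph.sup_adj]; exact Or.inl h
  rcases u with u | u
  · rcases v with v | v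
    · -- both in the first side, not partners: hub `u`, path `u', b₁, v, b₂`
      have hv1 : u.1 ≠ v.1 := by
        intro h
        apply hnadj
        rw [matched_ll]
        exact ⟨h, fun h2 => huv (congrArg Sum.inl (Prod.ext h h2))⟩
      have hpart : (matched k).Adj (.inl u) (.inl (u.1, !u.2)) := by
        rw [matched_ll]; exact ⟨rfl, by cases u.2 <;> simp⟩
      refine gem_contained (h := .inl u) (p := .inl (u.1, !u.2)) (q := .inr (u.1, true))
        (r := .inl v) (s := .inr (u.1, false)) (old hpart) (old (matched_lr _ _)) hnew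
        (old (matched_lr _ _)) (old (matched_lr _ _)) (old (matched_rl _ _))
        (old (matched_lr _ _)) ?_ (by simp) (by simp)
      intro h
      have h' := Sum.inl.inj h
      exact hv1 (by rw [← h'])
    · exact absurd (matched_lr u v) hnadj
  · rcases v with v | v
    · exact absurd (matched_rl u v) hnadj
    · -- both in the second side: hub `a`, path `u, v, a', w`
      obtain ⟨w, hw⟩ : ∃ w : Fin k × Bool, w ∉ ({u, v} : Finset (Fin k × Bool)) := by
        by_contra hcon
        push Not at hcon
        have h1 : (Finset.univ : Finset (Fin k × Bool)) ⊆ {u, v} := fun w _ => hcon w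
        have h2 := Finset.card_le_card h1
        have h3 : ({u, v} : Finset (Fin k × Bool)).card ≤ 2 := Finset.card_le_two
        rw [Finset.card_univ, Fintype.card_prod, Fintype.card_fin, Fintype.card_bool] at h2
        omega
      simp only [Finset.mem_insert, Finset.mem_singleton, not_or] at hw
      have hpart : (matched k).Adj (.inl (u.1, true)) (.inl (u.1, false)) := by
        rw [matched_ll]; simp
      refine gem_contained (h := .inl (u.1, true)) (p := .inr u) (q := .inr v)
        (r := .inl (u.1, false)) (s := .inr w) (old (matched_lr _ _)) (old (matched_lr _ _))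
        (old hpart) (old (matched_lr _ _)) hnew (old (matched_rl _ _)) (old (matched_lr _ _))
        (by simp) ?_ ?_
      · intro h; exact hw.1 (Sum.inr.inj h).symm
      · intro h; exact hw.2 (Sum.inr.inj h).symm

theorem matched_card (k : ℕ) : Nat.card ((Fin k × Bool) ⊕ (Fin k × Bool)) = 4 * k := by
  rw [Nat.card_eq_fintype_card, Fintype.card_sum, Fintype.card_prod, Fintype.card_fin,
    Fintype.card_bool]
  ring

theorem matched_minDeg {k : ℕ} {α : ℝ} (hα : α ≤ 1 / 2) : MinDegGE (matched k) α := by
  intro v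
  have hk : (2 * k : ℕ) ≤ ((matched k).neighborSet v).ncard := by
    have hcard : Fintype.card (Fin k × Bool) = 2 * k := by
      rw [Fintype.card_prod, Fintype.card_fin, Fintype.card_bool]; ring
    rcases v with v | v
    · have h1 : Set.range (Sum.inr : Fin k × Bool → (Fin k × Bool) ⊕ (Fin k × Bool)) ⊆
          (matched k).neighborSet (.inl v) := by
        rintro _ ⟨b, rfl⟩
        exact matched_lr v b
      have h2 := Set.ncard_le_ncard h1 (Set.toFinite _)
      rwa [← Nat.card_coe_set_eq, Nat.card_range_of_injective Sum.inr_injective,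
        Nat.card_eq_fintype_card, hcard] at h2
    · have h1 : Set.range (Sum.inl : Fin k × Bool → (Fin k × Bool) ⊕ (Fin k × Bool)) ⊆
          (matched k).neighborSet (.inr v) := by
        rintro _ ⟨b, rfl⟩
        exact matched_rl v b
      have h2 := Set.ncard_le_ncard h1 (Set.toFinite _)
      rwa [← Nat.card_coe_set_eq, Nat.card_range_of_injective Sum.inl_injective,
        Nat.card_eq_fintype_card, hcard] at h2
  have hk' : ((2 * k : ℕ) : ℝ) ≤ (((matched k).neighborSet v).ncard : ℝ) := by exact_mod_cast hk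
  rw [matched_card]
  refine le_trans ?_ hk'
  push_cast
  have : (0 : ℝ) ≤ (k : ℝ) := Nat.cast_nonneg k
  nlinarith

theorem not_blowupProperty_gem {α : ℝ} (hα : α ≤ 1 / 2) : ¬ BlowupProperty gem α := by
  rintro ⟨C, hC⟩
  obtain ⟨X, _, F, hcard, f, -, hf⟩ :=
    hC _ (matched (C + 2)) (matched_maximal (by omega)) (matched_minDeg hα)
  have hinj : Function.Injective (fun a : Fin (C + 2) × Bool => f (.inl a)) := by
    intro a c hac
    have hac' : f (.inl a) = f (.inl c) := hac
    -- the partner of `a` is adjacent to `a`, hence to `c`, hence `a = c`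
    have h1 : (matched (C + 2)).Adj (.inl (a.1, !a.2)) (.inl a) := by
      rw [matched_ll]; exact ⟨rfl, by cases a.2 <;> simp⟩
    have h2 : (matched (C + 2)).Adj (.inl (a.1, !a.2)) (.inl c) := by
      rw [hf, ← hac', ← hf]; exact h1
    exact matched_unique h1 h2
  have := Fintype.ofFinite X
  have h1 := Fintype.card_le_of_injective _ hinj
  rw [Fintype.card_prod, Fintype.card_fin, Fintype.card_bool, ← Nat.card_eq_fintype_card] at h1
  omega

theorem blowupProperty_two : BlowupProperty gem 2 := by
  refine ⟨0, ?_⟩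
  intro V _ G _ hdeg
  have := Fintype.ofFinite V
  rcases isEmpty_or_nonempty V with hV | ⟨⟨v⟩⟩
  · exact ⟨V, inferInstance, G, by simp, id, Function.surjective_id, fun u v => Iff.rfl⟩
  · exfalso
    have h1 := hdeg v
    have h2 : (G.neighborSet v).ncard ≤ Nat.card V := by
      rw [← Set.ncard_univ]
      exact Set.ncard_le_ncard (Set.subset_univ _) (Set.toFinite _)
    have h3 : ((G.neighborSet v).ncard : ℝ) ≤ (Nat.card V : ℝ) := by exact_mod_cast h2
    have h4 : 0 < Nat.card V := Nat.card_pos_iff.2 ⟨⟨v⟩, inferInstance⟩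
    have h5 : (0 : ℝ) < (Nat.card V : ℝ) := by exact_mod_cast h4
    linarith

theorem half_le_blowupThreshold_gem : 1 / 2 ≤ blowupThreshold gem := by
  unfold blowupThreshold
  refine le_csInf ⟨(2 : ℝ), by norm_num, blowupProperty_two⟩ ?_
  rintro α ⟨-, hα⟩
  by_contra hcon
  push Not at hcon
  exact not_blowupProperty_gem hcon.le hα

/-- For the gem `K_1 ∨ P_4` the homomorphism threshold is at most `3/7`, while the blowup
threshold is at least `1/2`. In particular the two thresholds differ. -/
theorem result : homThreshold gem ≤ 3 / 7 ∧ 1 / 2 ≤ blowupThreshold gem :=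
  ⟨homThreshold_gem_le, half_le_blowupThreshold_gem⟩

end Pool.Agent.Results.MP_dfc8ea_co.GemThresholds
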